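import Mathlib

/-!
# MP_b9e9b1_co: rigid, maximally diameter-`r` subsets of the hypercube

`b'(n;r)`, the largest size of a rigid, maximally diameter-`r` subset of the hypercube, is not
always `2^r`: there is such a subset of `Q_7` with diameter `5` and `37 > 32` points. Hence
`b'(n;r) ≥ 37 · 2^(r-5) > 2^r` whenever `r ≥ 5` and `n ≥ r + 2`.
-/

namespace Pool.Agent.Results.MP_b9e9b1_co.RigidSetsBeyondSubcubes

/-- The vertices of the hypercube `Q_n` (`Bool` in place of `{±1}`); the Hamming distance is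
Mathlib's `hammingDist`. -/
abbrev Cube (n : ℕ) := Fin n → Bool

/-- the diameter of a set of vertices -/
def diam {n : ℕ} (A : Finset (Cube n)) : ℕ := A.sup fun x => A.sup fun y => hammingDist x y

/-- `A` is maximally diameter-`r` -/
def MaximallyDiameter {n : ℕ} (r : ℕ) (A : Finset (Cube n)) : Prop :=
  diam A = r ∧ ∀ x, x ∉ A → r < diam (insert x A)

/-- `A` is rigid: every point of `A` has eccentricity `diam A` within `A` -/
def Rigid {n : ℕ} (A : Finset (Cube n)) : Prop :=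
  ∀ a ∈ A, (A.sup fun x => hammingDist x a) = diam A

/-- `b'(n;r)`: the largest cardinality of a rigid, maximally diameter-`r` subset of `Q_n`. -/
noncomputable def b' (n r : ℕ) : ℕ :=
  sSup {k | ∃ A : Finset (Cube n), MaximallyDiameter r A ∧ Rigid A ∧ A.card = k}

/-- the same conditions, elementwise -/
structure R {n : ℕ} (r : ℕ) (A : Finset (Cube n)) : Prop where
  ne : A.Nonempty
  le : ∀ x ∈ A, ∀ y ∈ A, hammingDist x y ≤ r
  far : ∀ a ∈ A, ∃ x ∈ A, hammingDist x a = r
  mx : ∀ x, x ∉ A → ∃ a ∈ A, r < hammingDist x a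

lemma R.diam {n r : ℕ} {A : Finset (Cube n)} (h : R r A) : diam A = r := by
  apply le_antisymm
  · exact Finset.sup_le fun x hx => Finset.sup_le fun y hy => h.le x hx y hy
  · obtain ⟨a, ha⟩ := h.ne
    obtain ⟨x, hx, hxa⟩ := h.far a ha
    calc r = hammingDist x a := hxa.symm
      _ ≤ A.sup fun y => hammingDist x y := Finset.le_sup (f := fun y => hammingDist x y) ha
      _ ≤ _ := Finset.le_sup (f := fun x => A.sup fun y => hammingDist x y) hx

lemma R.maximally {n r : ℕ} {A : Finset (Cube n)} (h : R r A) : MaximallyDiameter r A := by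
  refine ⟨h.diam, ?_⟩
  intro x hx
  obtain ⟨a, ha, hlt⟩ := h.mx x hx
  calc r < hammingDist x a := hlt
    _ ≤ (insert x A).sup fun y => hammingDist x y :=
      Finset.le_sup (f := fun y => hammingDist x y) (Finset.mem_insert_of_mem ha)
    _ ≤ _ := Finset.le_sup (f := fun x' => (insert x A).sup fun y => hammingDist x' y)
      (Finset.mem_insert_self x A)

lemma R.rigid {n r : ℕ} {A : Finset (Cube n)} (h : R r A) : Rigid A := by
  intro a ha
  rw [h.diam]
  apply le_antisymm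
  · exact Finset.sup_le fun x hx => h.le x hx a ha
  · obtain ⟨x, hx, hxa⟩ := h.far a ha
    calc r = hammingDist x a := hxa.symm
      _ ≤ _ := Finset.le_sup (f := fun x => hammingDist x a) hx

lemma R.le_b' {n r : ℕ} {A : Finset (Cube n)} (h : R r A) : A.card ≤ b' n r := by
  apply le_csSup
  · refine ⟨2 ^ n, ?_⟩
    rintro k ⟨B, _, _, rfl⟩
    calc B.card ≤ Fintype.card (Cube n) := Finset.card_le_univ B
      _ = 2 ^ n := by simp [Cube]
  · exact ⟨A, h.maximally, h.rigid, rfl⟩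

/-! ### one more coordinate -/

/-- prepend the coordinate `b` -/
def emb {n : ℕ} (b : Bool) : Cube n ↪ Cube (n + 1) :=
  ⟨fun x => Fin.cons b x, fun _ _ h => Fin.cons_right_injective (α := fun _ => Bool) b h⟩

lemma dist_emb {n : ℕ} (b c : Bool) (x y : Cube n) :
    hammingDist (emb b x) (emb c y) = (if b = c then 0 else 1) + hammingDist x y := by
  unfold hammingDist
  rw [Finset.card_filter, Finset.card_filter, Fin.sum_univ_succ]
  have h1 : ∀ i : Fin n, (emb b x) i.succ = x i := fun i => rfl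
  have h2 : ∀ i : Fin n, (emb c y) i.succ = y i := fun i => rfl
  have h3 : (emb b x) 0 = b := rfl
  have h4 : (emb c y) 0 = c := rfl
  simp only [h1, h2, h3, h4]
  by_cases h : b = c <;> simp [h]

lemma exists_emb {n : ℕ} (z : Cube (n + 1)) : ∃ b x, z = emb b x :=
  ⟨z 0, Fin.tail z, (Fin.cons_self_tail z).symm⟩

lemma R.lift {n r : ℕ} {A : Finset (Cube n)} (h : R r A) : R r (A.map (emb true)) := by
  refine ⟨?_, ?_, ?_, ?_⟩
  · exact h.ne.map
  · intro x hx y hy
    rw [Finset.mem_map] at hx hy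
    obtain ⟨x, hx, rfl⟩ := hx
    obtain ⟨y, hy, rfl⟩ := hy
    rw [dist_emb]
    simpa using h.le x hx y hy
  · intro a ha
    rw [Finset.mem_map] at ha
    obtain ⟨a, ha, rfl⟩ := ha
    obtain ⟨x, hx, hxa⟩ := h.far a ha
    refine ⟨emb true x, Finset.mem_map_of_mem _ hx, ?_⟩
    rw [dist_emb, hxa]
    simp
  · intro z hz
    obtain ⟨b, x, rfl⟩ := exists_emb z
    by_cases hx : x ∈ A
    · obtain ⟨a, ha, hax⟩ := h.far x hx
      have hb : b ≠ true := by
        rintro rfl
        exact hz (Finset.mem_map_of_mem _ hx)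
      refine ⟨emb true a, Finset.mem_map_of_mem _ ha, ?_⟩
      rw [dist_emb, if_neg hb, hammingDist_comm, hax]
      omega
    · obtain ⟨a, ha, hlt⟩ := h.mx x hx
      refine ⟨emb true a, Finset.mem_map_of_mem _ ha, ?_⟩
      rw [dist_emb]
      omega

/-- the product of `A` with an edge -/
def dbl {n : ℕ} (A : Finset (Cube n)) : Finset (Cube (n + 1)) :=
  A.map (emb true) ∪ A.map (emb false)

lemma mem_dbl {n : ℕ} {A : Finset (Cube n)} {b : Bool} {x : Cube n} :
    emb b x ∈ dbl A ↔ x ∈ A := by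
  unfold dbl
  rw [Finset.mem_union, Finset.mem_map, Finset.mem_map]
  constructor
  · rintro (⟨y, hy, he⟩ | ⟨y, hy, he⟩)
    · have : y = x := by
        funext i
        exact congrFun he i.succ
      exact this ▸ hy
    · have : y = x := by
        funext i
        exact congrFun he i.succ
      exact this ▸ hy
  · intro hx
    cases b
    · exact Or.inr ⟨x, hx, rfl⟩
    · exact Or.inl ⟨x, hx, rfl⟩

lemma card_dbl {n : ℕ} (A : Finset (Cube n)) : (dbl A).card = 2 * A.card := by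
  unfold dbl
  rw [Finset.card_union_of_disjoint, Finset.card_map, Finset.card_map]
  · ring
  · rw [Finset.disjoint_left]
    intro z h1 h2
    rw [Finset.mem_map] at h1 h2
    obtain ⟨x, _, rfl⟩ := h1
    obtain ⟨y, _, he⟩ := h2
    have h0 : false = true := congrFun he 0
    exact absurd h0 (by decide)

lemma R.dbl {n r : ℕ} {A : Finset (Cube n)} (h : R r A) : R (r + 1) (dbl A) := by
  refine ⟨?_, ?_, ?_, ?_⟩
  · obtain ⟨a, ha⟩ := h.ne
    exact ⟨emb true a, mem_dbl.2 ha⟩
  · intro x hx y hy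
    obtain ⟨b, x, rfl⟩ := exists_emb x
    obtain ⟨c, y, rfl⟩ := exists_emb y
    rw [dist_emb]
    have := h.le x (mem_dbl.1 hx) y (mem_dbl.1 hy)
    split_ifs <;> omega
  · intro a ha
    obtain ⟨b, a, rfl⟩ := exists_emb a
    obtain ⟨x, hx, hxa⟩ := h.far a (mem_dbl.1 ha)
    refine ⟨emb (!b) x, mem_dbl.2 hx, ?_⟩
    rw [dist_emb, if_neg (by cases b <;> decide), hxa]
    omega
  · intro z hz
    obtain ⟨b, x, rfl⟩ := exists_emb z
    obtain ⟨a, ha, hlt⟩ := h.mx x (fun hx => hz (mem_dbl.2 hx))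
    refine ⟨emb (!b) a, mem_dbl.2 ha, ?_⟩
    rw [dist_emb, if_neg (by cases b <;> decide)]
    omega

/-! ### the base example -/

/-- binary codes of the 37 points of `Q_7` -/
def codes : List ℕ := [0, 2, 3, 6, 10, 16, 19, 22, 26, 34, 45, 50, 64, 65, 67, 68, 70, 71, 72,
  74, 75, 78, 81, 84, 87, 88, 91, 94, 96, 98, 99, 102, 106, 112, 115, 118, 122]

/-- the point with a given binary code -/
def pt (a : ℕ) : Cube 7 := fun i => a.testBit i

/-- Hamming distance of binary codes -/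
def hd (a b : ℕ) : ℕ :=
  (if ¬ a.testBit 0 = b.testBit 0 then 1 else 0) + (if ¬ a.testBit 1 = b.testBit 1 then 1 else 0) +
  (if ¬ a.testBit 2 = b.testBit 2 then 1 else 0) + (if ¬ a.testBit 3 = b.testBit 3 then 1 else 0) +
  (if ¬ a.testBit 4 = b.testBit 4 then 1 else 0) + (if ¬ a.testBit 5 = b.testBit 5 then 1 else 0) +
  (if ¬ a.testBit 6 = b.testBit 6 then 1 else 0)

lemma dist_pt (a b : ℕ) : hammingDist (pt a) (pt b) = hd a b := by
  unfold hammingDist hd
  rw [Finset.card_filter, Fin.sum_univ_seven]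
  simp only [pt, ne_eq]
  rfl

lemma exists_pt (x : Cube 7) : ∃ a, a < 128 ∧ x = pt a := by
  refine ⟨Nat.ofBits x, Nat.ofBits_lt_two_pow x, ?_⟩
  funext i
  unfold pt
  rw [Nat.testBit_ofBits_lt x i i.2]

lemma pt_inj {a b : ℕ} (ha : a < 128) (hb : b < 128) (h : pt a = pt b) : a = b := by
  apply Nat.eq_of_testBit_eq
  intro i
  by_cases hi : i < 7
  · exact congrFun h ⟨i, hi⟩
  · have h1 : (2 : ℕ) ^ 7 ≤ 2 ^ i := Nat.pow_le_pow_right (by norm_num) (by omega)
    rw [Nat.testBit_lt_two_pow (by omega), Nat.testBit_lt_two_pow (by omega)]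

/-- the 37 points -/
def base : Finset (Cube 7) := (codes.map pt).toFinset

lemma mem_base {x : Cube 7} : x ∈ base ↔ ∃ a ∈ codes, pt a = x := by
  unfold base
  rw [List.mem_toFinset, List.mem_map]

lemma codes_lt : ∀ a ∈ codes, a < 128 := by decide

lemma codes_le : ∀ a ∈ codes, ∀ b ∈ codes, hd a b ≤ 5 := by decide +kernel

lemma codes_far : ∀ a ∈ codes, ∃ b ∈ codes, hd b a = 5 := by decide +kernel

lemma codes_mx : ∀ a ∈ List.range 128, a ∉ codes → ∃ b ∈ codes, 5 < hd a b := by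
  decide +kernel

lemma R_base : R 5 base := by
  refine ⟨⟨pt 0, mem_base.2 ⟨0, by decide, rfl⟩⟩, ?_, ?_, ?_⟩
  · intro x hx y hy
    obtain ⟨a, ha, rfl⟩ := mem_base.1 hx
    obtain ⟨b, hb, rfl⟩ := mem_base.1 hy
    rw [dist_pt]
    exact codes_le a ha b hb
  · intro x hx
    obtain ⟨a, ha, rfl⟩ := mem_base.1 hx
    obtain ⟨b, hb, hd⟩ := codes_far a ha
    exact ⟨pt b, mem_base.2 ⟨b, hb, rfl⟩, by rw [dist_pt]; exact hd⟩
  · intro x hx
    obtain ⟨a, ha, rfl⟩ := exists_pt x
    obtain ⟨b, hb, hd⟩ := codes_mx a (List.mem_range.2 ha)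
      (fun h => hx (mem_base.2 ⟨a, h, rfl⟩))
    exact ⟨pt b, mem_base.2 ⟨b, hb, rfl⟩, by rw [dist_pt]; exact hd⟩

lemma card_base : base.card = 37 := by
  unfold base
  rw [List.toFinset_card_of_nodup]
  · rw [List.length_map]; rfl
  · refine List.Nodup.map_on ?_ (by decide)
    intro a ha b hb h
    exact pt_inj (codes_lt a ha) (codes_lt b hb) h

lemma exists_R (r n : ℕ) : ∃ A : Finset (Cube (7 + r + n)), R (5 + r) A ∧ A.card = 37 * 2 ^ r := by
  induction n with
  | zero =>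
    induction r with
    | zero => exact ⟨base, R_base, by rw [card_base]; norm_num⟩
    | succ r ih =>
      obtain ⟨A, hA, hc⟩ := ih
      exact ⟨_, hA.dbl, by rw [card_dbl, hc]; ring⟩
  | succ n ih =>
    obtain ⟨A, hA, hc⟩ := ih
    exact ⟨_, hA.lift, by rw [Finset.card_map, hc]⟩

/-- **Theorem.** It is not true that `b'(n;r) = 2^r` for all `n ≥ r ≥ 0`. More precisely,
`b'(n;r) ≥ 37 · 2^(r-5) > 2^r` for all `r ≥ 5` and all `n ≥ r + 2`. -/
theorem result : (¬ ∀ n r : ℕ, r ≤ n → b' n r = 2 ^ r) ∧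
    ∀ n r : ℕ, 5 ≤ r → r + 2 ≤ n → 37 * 2 ^ (r - 5) ≤ b' n r ∧ 2 ^ r < b' n r := by
  have key : ∀ n r : ℕ, 5 ≤ r → r + 2 ≤ n → 37 * 2 ^ (r - 5) ≤ b' n r ∧ 2 ^ r < b' n r := by
    intro n r hr hn
    obtain ⟨s, rfl⟩ := Nat.exists_eq_add_of_le hr
    obtain ⟨m, rfl⟩ : ∃ m, n = 7 + s + m := ⟨n - (7 + s), by omega⟩
    obtain ⟨A, hA, hc⟩ := exists_R s m
    have h1 := hA.le_b'
    rw [hc] at h1
    have h2 : 5 + s - 5 = s := by omega
    rw [h2]
    refine ⟨h1, lt_of_lt_of_le ?_ h1⟩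
    rw [pow_add]
    have : 0 < 2 ^ s := by positivity
    omega
  refine ⟨?_, key⟩
  intro h
  have h1 := h 7 5 (by norm_num)
  have h2 := (key 7 5 le_rfl (by norm_num)).2
  omega

end Pool.Agent.Results.MP_b9e9b1_co.RigidSetsBeyondSubcubes
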